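import Mathlib

set_option autoImplicit false

namespace Pool.Agent.Results.MP_94c5d9_co.No

open Finset

/-- A formula with `m` terms (or clauses) over `n` variables: each is a finite set of literals,
the literal `(v, s)` being true under `x` when `x v = s`. -/
abbrev Formula (n m : ℕ) := Fin m → Finset (Fin n × Bool)

/-- Number of satisfying assignments of the formula read as a DNF. -/
def dnf {n m : ℕ} (F : Formula n m) : ℕ := #{x : Fin n → Bool | ∃ i, ∀ l ∈ F i, x l.1 = l.2}

/-- Number of satisfying assignments of the formula read as a CNF. -/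
def cnf {n m : ℕ} (F : Formula n m) : ℕ := #{x : Fin n → Bool | ∀ i, ∃ l ∈ F i, x l.1 = l.2}

/-- Least number of terms or clauses of a DNF or CNF with exactly `k` satisfying assignments. -/
noncomputable def beta (k : ℕ) : ℕ := sInf {m | ∃ n, ∃ F : Formula n m, dnf F = k ∨ cnf F = k}

/-- Number of maximal runs of ones in the binary form of `k` (each counted at its top bit). -/
def bl (k : ℕ) : ℕ := #{i ∈ range k | k.testBit i = true ∧ k.testBit (i + 1) = false}

def cube {n : ℕ} (T : Finset (Fin n × Bool)) : Finset (Fin n → Bool) :=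
  {x | ∀ l ∈ T, x l.1 = l.2}

def fr {n : ℕ} (T : Finset (Fin n × Bool)) : ℕ := #(T.image Prod.fst)ᶜ

lemma card_cube {n : ℕ} {T : Finset (Fin n × Bool)} (h : (cube T).Nonempty) :
    #(cube T) = 2 ^ fr T := by
  obtain ⟨y, hy⟩ := h
  have hy' : ∀ l ∈ T, y l.1 = l.2 := by simpa [cube] using hy
  have : cube T = Fintype.piFinset fun v => if v ∈ (T.image Prod.fst)ᶜ then univ else {y v} := by
    ext x
    simp only [cube, mem_filter, mem_univ, true_and, Fintype.mem_piFinset]
    constructor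
    · intro h v
      split_ifs with c
      · exact mem_univ _
      · obtain ⟨l, hl, rfl⟩ := mem_image.1 (by simpa only [mem_compl, not_not] using c)
        rw [mem_singleton, h l hl, hy' l hl]
    · intro h l hl
      have := h l.1
      rw [if_neg (by simpa only [mem_compl, not_not] using mem_image_of_mem _ hl),
        mem_singleton] at this
      rw [this, hy' l hl]
  rw [this, Fintype.card_piFinset]
  simp only [apply_ite card, card_singleton, card_univ, Fintype.card_bool]
  rw [prod_ite_mem, univ_inter, prod_const, fr]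

lemma fr_le {n : ℕ} (T : Finset (Fin n × Bool)) : fr T ≤ n := by
  simpa [fr] using card_le_univ (T.image Prod.fst)ᶜ

lemma incl {n m : ℕ} (F : Formula n m) :
    (#{x : Fin n → Bool | ∀ i, x ∉ cube (F i)} : ℤ) =
      ∑ S : Finset (Fin m), (-1 : ℤ) ^ #S * #(cube (S.biUnion F)) := by
  have := inclusion_exclusion_card_inf_compl (univ : Finset (Fin m)) (fun i => cube (F i))
  rw [powerset_univ] at this
  convert this using 3 with S
  · ext x
    simp [mem_inf]
  · congr 2
    ext x
    simp only [cube, mem_filter, mem_univ, true_and, mem_biUnion, mem_inf]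
    exact ⟨fun h i hi l hl => h l ⟨i, hi, hl⟩, fun h l ⟨i, hi, hl⟩ => h i hi l hl⟩

lemma near {m : ℕ} (k e : ℕ) (a : Finset (Fin m) → ℤ) (f : Finset (Fin m) → ℕ)
    (hk : (k : ℤ) = ∑ S, a S) (ha : ∀ S, a S ≠ 0 → |a S| = 2 ^ f S)
    (h1 : k.testBit e = true) (h2 : k.testBit (e + 1) = false) :
    ∃ S, a S ≠ 0 ∧ e ≤ f S + m + 1 ∧ f S ≤ e + 1 := by
  by_contra hc
  push Not at hc
  rw [← sum_filter_add_sum_filter_not univ (fun S => a S ≠ 0 ∧ f S ≤ e + 1)] at hk
  have b1 : (2 : ℤ) ^ (e + 2) ∣ ∑ S with ¬(a S ≠ 0 ∧ f S ≤ e + 1), a S := by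
    refine dvd_sum fun S hS => ?_
    by_cases c : a S = 0
    · rw [c]; exact dvd_zero _
    · rw [← dvd_abs, ha S c]
      have := (mem_filter.1 hS).2
      exact pow_dvd_pow _ (by by_contra h; exact this ⟨c, by omega⟩)
  have b2 : 2 ^ m * 4 * |∑ S with (a S ≠ 0 ∧ f S ≤ e + 1), a S| ≤ 2 ^ m * 2 ^ e := by
    refine (mul_le_mul_of_nonneg_left (abs_sum_le_sum_abs _ _) (by positivity)).trans ?_
    rw [mul_sum]
    refine (sum_le_card_nsmul _ _ (2 ^ e) fun S hS => ?_).trans ?_
    · obtain ⟨c1, c2⟩ := (mem_filter.1 hS).2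
      rw [ha S c1, show (2 : ℤ) ^ m * 4 * 2 ^ f S = 2 ^ (f S + m + 2) by ring]
      refine pow_le_pow_right₀ one_le_two ?_
      by_contra h
      have := hc S c1 (by omega)
      omega
    · rw [nsmul_eq_mul]
      refine mul_le_mul_of_nonneg_right ?_ (by positivity)
      have := card_le_univ (univ.filter fun S : Finset (Fin m) => a S ≠ 0 ∧ f S ≤ e + 1)
      rw [Fintype.card_finset, Fintype.card_fin] at this
      exact_mod_cast this
  rw [mul_assoc] at b2
  have b3 := le_of_mul_le_mul_left b2 (by positivity)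
  obtain ⟨h, hh⟩ := b1
  rw [hh] at hk
  rw [Nat.testBit_eq_decide_div_mod_eq] at h1 h2
  rw [pow_succ, ← Nat.div_div_eq_div_mul] at h2
  simp only [decide_eq_true_eq, decide_eq_false_iff_not] at h1 h2
  have d1 := Nat.div_add_mod k (2 ^ e)
  have d2 := Nat.mod_lt k (show 0 < 2 ^ e by positivity)
  obtain ⟨q, hq⟩ : ∃ q, k / 2 ^ e = 4 * q + 1 := ⟨k / 2 ^ e / 4, by omega⟩
  rw [hq] at d1
  zify at d1 d2
  have d3 : (0 : ℤ) ≤ (k : ℤ) % 2 ^ e := Int.emod_nonneg _ (by positivity)
  have d4 : (0 : ℤ) < 2 ^ e := by positivity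
  rw [pow_add] at hk
  generalize (2 : ℤ) ^ e = P at *
  generalize (k : ℤ) % P = r at *
  generalize (∑ S with (a S ≠ 0 ∧ f S ≤ e + 1), a S) = L at *
  have e1 := le_abs_self L
  have e2 := neg_abs_le L
  rcases le_or_gt h q with c | c
  · nlinarith
  · have : (q : ℤ) + 1 ≤ h := c
    nlinarith

lemma scale {n m : ℕ} (F : Formula n m) {S : Finset (Fin m)} {i : Fin m} (hi : i ∈ S) :
    ∃ j δ, fr (S.biUnion F) + δ = fr (F i) ∧
      #((F j).image Prod.fst \ (F i).image Prod.fst) ≤ δ ∧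
      δ ≤ m * #((F j).image Prod.fst \ (F i).image Prod.fst) := by
  obtain ⟨j, hj, hmax⟩ := exists_max_image S
    (fun j => #((F j).image Prod.fst \ (F i).image Prod.fst)) ⟨i, hi⟩
  have hs : ∀ j ∈ S, (F j).image Prod.fst ⊆ (S.biUnion F).image Prod.fst := fun j hj =>
    image_subset_image (subset_biUnion_of_mem F hj)
  refine ⟨j, #((S.biUnion F).image Prod.fst \ (F i).image Prod.fst), ?_, ?_, ?_⟩
  · have h1 := card_sdiff_add_card_eq_card (hs i hi)
    have h2 := card_add_card_compl ((S.biUnion F).image Prod.fst)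
    have h3 := card_add_card_compl ((F i).image Prod.fst)
    unfold fr
    omega
  · exact card_le_card (sdiff_subset_sdiff (hs j hj) le_rfl)
  · have : (S.biUnion F).image Prod.fst \ (F i).image Prod.fst ⊆
        S.biUnion fun j => (F j).image Prod.fst \ (F i).image Prod.fst := by
      intro v hv
      obtain ⟨h1, h2⟩ := mem_sdiff.1 hv
      obtain ⟨l, hl, rfl⟩ := mem_image.1 h1
      obtain ⟨j, hj, hl⟩ := mem_biUnion.1 hl
      exact mem_biUnion.2 ⟨j, hj, mem_sdiff.2 ⟨mem_image_of_mem _ hl, h2⟩⟩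
    refine (card_le_card this).trans ((card_biUnion_le_card_mul _ _ _ hmax).trans ?_)
    exact Nat.mul_le_mul_right _ (by simpa using card_le_univ S)

def E (b : ℕ) : Finset ℕ := (range (b + 1)).image fun t => (3 * b + 3) ^ b - (3 * b + 3) ^ t

def K (b : ℕ) : ℕ := ∑ e ∈ E b, 2 ^ e

lemma K_bit (b i : ℕ) : (K b).testBit i = true ↔ i ∈ E b := by
  rw [← Nat.mem_bitIndices, ← List.mem_toFinset, K, toFinset_bitIndices_sum_two_pow]

lemma gap (b : ℕ) {s t : ℕ} (h : s < t) : (3 * b + 3) * (3 * b + 3) ^ s ≤ (3 * b + 3) ^ t := by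
  rw [← pow_succ']
  exact Nat.pow_le_pow_right (by omega) h

lemma pw (b : ℕ) {t : ℕ} (h : t ≤ b) : 1 ≤ (3 * b + 3) ^ t ∧ (3 * b + 3) ^ t ≤ (3 * b + 3) ^ b :=
  ⟨Nat.one_le_pow _ _ (by omega), Nat.pow_le_pow_right (by omega) h⟩

lemma K_bit' (b i : ℕ) (hi : i ∈ E b) : (K b).testBit (i + 1) = false := by
  rw [← Bool.not_eq_true, K_bit]
  intro h
  obtain ⟨s, hs, rfl⟩ := mem_image.1 hi
  obtain ⟨t, ht, h⟩ := mem_image.1 h
  have h1 := pw b (Nat.lt_succ_iff.1 (mem_range.1 hs))
  have h2 := pw b (Nat.lt_succ_iff.1 (mem_range.1 ht))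
  rcases lt_trichotomy s t with c | c | c
  · have := gap b c; nlinarith [show (3 * b + 3) ^ s = (3 * b + 3) ^ t + 1 by omega]
  · subst c; omega
  · have := gap b c; nlinarith [show (3 * b + 3) ^ s = (3 * b + 3) ^ t + 1 by omega]

lemma bl_K (b : ℕ) : bl (K b) = b + 1 := by
  have : bl (K b) = #(E b) := by
    unfold bl
    congr 1
    ext i
    rw [mem_filter, K_bit, mem_range]
    exact ⟨fun h => h.2.1, fun h => ⟨lt_geomSum_of_mem le_rfl h, h, K_bit' b i h⟩⟩
  rw [this, E, card_image_of_injOn, card_range]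
  intro s hs t ht h
  have h1 := pw b (Nat.lt_succ_iff.1 (mem_range.1 hs))
  have h2 := pw b (Nat.lt_succ_iff.1 (mem_range.1 ht))
  simp only at h
  exact Nat.pow_right_injective (a := 3 * b + 3) (by omega) (by simp only; omega)

lemma K_lt (b : ℕ) : K b < 2 ^ (3 * b + 3) ^ b :=
  Nat.geomSum_lt le_rfl fun e he => by
    obtain ⟨s, hs, rfl⟩ := mem_image.1 he
    have h1 := pw b (Nat.lt_succ_iff.1 (mem_range.1 hs))
    omega

lemma K_ge (b : ℕ) : 2 ^ ((3 * b + 3) ^ b - 1) ≤ K b :=
  single_le_sum (f := fun e => 2 ^ e) (fun _ _ => Nat.zero_le _)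
    (mem_image.2 ⟨0, mem_range.2 (by omega), by simp⟩)

lemma core {n m : ℕ} (b T : ℕ) (F : Formula n m) (a : Finset (Fin m) → ℤ)
    (hk : (K b : ℤ) = ∑ S, a S)
    (ha : ∀ S, a S ≠ 0 → |a S| = #(cube (S.biUnion F)) ∧ (S = ∅ → T = n))
    (h1 : ∀ i, (cube (F i)).Nonempty → fr (F i) ≤ T)
    (h2 : (3 * b + 3) ^ b ≤ T + 1) (h3 : T ≤ (3 * b + 3) ^ b + m) : b ≤ m ^ 2 := by
  by_contra hb
  have hne : ∀ S, a S ≠ 0 → (cube (S.biUnion F)).Nonempty := fun S hS => by
    rw [← card_pos]
    have := abs_pos.2 hS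
    rw [(ha S hS).1] at this
    exact_mod_cast this
  have key : ∀ t : Fin b, ∃ p : Fin m × Fin m,
      T - fr (F p.1) + #((F p.2).image Prod.fst \ (F p.1).image Prod.fst) ≤
        (3 * b + 3) ^ (t + 1 : ℕ) + 2 * m + 1 ∧ (3 * b + 3) ^ (t + 1 : ℕ) ≤
        m * (T - fr (F p.1) + #((F p.2).image Prod.fst \ (F p.1).image Prod.fst)) + 2 := by
    intro t
    have he : (3 * b + 3) ^ b - (3 * b + 3) ^ (t + 1 : ℕ) ∈ E b :=
      mem_image.2 ⟨t + 1, mem_range.2 (by omega), rfl⟩
    obtain ⟨S, hS, c1, c2⟩ := near (K b) _ a (fun S => fr (S.biUnion F)) hk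
      (fun S hS => by rw [(ha S hS).1, card_cube (hne S hS)]; norm_cast)
      ((K_bit b _).2 he) (K_bit' b _ he)
    have p1 := pw b (show (t + 1 : ℕ) ≤ b by omega)
    have p2 := gap b (show 0 < (t + 1 : ℕ) by omega)
    rw [pow_zero] at p2
    rcases S.eq_empty_or_nonempty with rfl | ⟨i, hi⟩
    · have := (ha _ hS).2 rfl
      have e : fr ((∅ : Finset (Fin m)).biUnion F) = n := by simp [fr]
      omega
    obtain ⟨j, δ, d1, d2, d3⟩ := scale F hi
    have d4 := h1 i ((hne S hS).mono fun x hx => by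
      simp only [cube, mem_filter, mem_univ, true_and] at hx ⊢
      exact fun l hl => hx l (mem_biUnion.2 ⟨i, hi, hl⟩))
    have d5 : T - fr (F i) ≤ m * (T - fr (F i)) := Nat.le_mul_of_pos_left _ i.pos
    refine ⟨(i, j), ?_, ?_⟩
    · simp only; omega
    · simp only [mul_add]; omega
  choose p hp using key
  have hm : m ≤ m ^ 2 := Nat.le_self_pow two_ne_zero m
  have inj : ∀ s t : Fin b, s < t → p s ≠ p t := by
    intro s t hst h
    have a1 := (hp s).1
    have a2 := (hp t).2
    rw [← h] at a2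
    have a3 := gap b (show (s + 1 : ℕ) < t + 1 from Nat.succ_lt_succ hst)
    have a4 := gap b (show 0 < (s + 1 : ℕ) by omega)
    rw [pow_zero] at a4
    have a5 := Nat.mul_le_mul_left m a1
    have a6 : m * (3 * b + 3) ^ (s + 1 : ℕ) ≤ b * (3 * b + 3) ^ (s + 1 : ℕ) :=
      Nat.mul_le_mul_right _ (by omega)
    nlinarith
  have := Fintype.card_le_of_injective p fun s t h => by
    rcases lt_trichotomy s t with c | c | c
    · exact absurd h (inj s t c)
    · exact c
    · exact absurd h.symm (inj t s c)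
  simp only [Fintype.card_fin, Fintype.card_prod] at this
  exact hb (by rw [sq]; exact this)

lemma lower {n m : ℕ} (b : ℕ) (F : Formula n m) (h : dnf F = K b ∨ cnf F = K b) : b ≤ m ^ 2 := by
  have k1 := K_lt b
  have k2 := K_ge b
  have ab : ∀ (S : Finset (Fin m)) (c : ℕ), |(-1 : ℤ) ^ #S * c| = c := fun S c => by
    rw [abs_mul, abs_pow, abs_neg, abs_one, one_pow, one_mul, Nat.abs_cast]
  rcases h with h | h
  · refine core b ((3 * b + 3) ^ b) F
      (fun S => if S = ∅ then 0 else -((-1 : ℤ) ^ #S * #(cube (S.biUnion F)))) ?_ ?_ ?_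
      (by omega) (by omega)
    · have h1 := incl F
      have h2 := card_filter_add_card_filter_not (s := (univ : Finset (Fin n → Bool)))
        (fun x => ∃ i, ∀ l ∈ F i, x l.1 = l.2)
      have h3 : (univ.filter fun x : Fin n → Bool => ¬ ∃ i, ∀ l ∈ F i, x l.1 = l.2) =
          univ.filter fun x => ∀ i, x ∉ cube (F i) := by
        ext x; simp [cube]
      rw [h3] at h2
      rw [← add_sum_erase _ _ (mem_univ ∅)] at h1 ⊢
      rw [if_pos rfl, zero_add, sum_congr rfl fun S hS => if_neg (ne_of_mem_erase hS),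
        sum_neg_distrib, ← h]
      have h4 : cube ((∅ : Finset (Fin m)).biUnion F) = univ := by ext x; simp [cube]
      rw [h4, ← h2] at h1
      simp only [card_empty, pow_zero, one_mul, Nat.cast_add] at h1
      unfold dnf
      linarith
    · intro S hS
      by_cases c : S = ∅
      · simp [c] at hS
      · rw [if_neg c, abs_neg, ab]
        exact ⟨rfl, fun h => absurd h c⟩
    · intro i hi
      have : #(cube (F i)) ≤ dnf F := card_le_card fun x hx => by
        simp only [cube, mem_filter, mem_univ, true_and] at hx ⊢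
        exact ⟨i, hx⟩
      rw [card_cube hi, h] at this
      exact ((Nat.pow_lt_pow_iff_right one_lt_two).1 (this.trans_lt k1)).le
  · let G : Formula n m := fun i => (F i).image fun l => (l.1, !l.2)
    refine core b n G (fun S => (-1 : ℤ) ^ #S * #(cube (S.biUnion G))) ?_
      (fun S _ => ⟨ab _ _, fun _ => rfl⟩) (fun i _ => fr_le _) ?_ ?_
    · rw [← incl G, ← h, cnf]
      congr 2
      ext x
      simp only [mem_filter, mem_univ, true_and, cube, G, forall_mem_image, not_forall]
      refine forall_congr' fun i => exists_congr fun l => ?_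
      cases x l.1 <;> cases l.2 <;> simp
    · have : cnf F ≤ 2 ^ n := by
        simpa [cnf] using card_le_univ (univ.filter fun x : Fin n → Bool =>
          ∀ i, ∃ l ∈ F i, x l.1 = l.2)
      have := (Nat.pow_le_pow_iff_right one_lt_two).1 (k2.trans (h ▸ this))
      omega
    · have h0 : 0 < cnf F := h ▸ lt_of_lt_of_le (by positivity) k2
      obtain ⟨y, hy⟩ := card_pos.1 h0
      choose l hl1 hl2 using (mem_filter.1 hy).2
      have h1 : #(cube (univ.image l)) ≤ cnf F := card_le_card fun x hx => by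
        simp only [cube, mem_filter, mem_univ, true_and] at hx ⊢
        exact fun i => ⟨l i, hl1 i, hx _ (mem_image_of_mem _ (mem_univ i))⟩
      rw [card_cube ⟨y, by simpa [cube] using hl2⟩, h] at h1
      have h2 := (Nat.pow_lt_pow_iff_right one_lt_two).1 (h1.trans_lt k1)
      have h3 := card_add_card_compl ((univ.image l).image Prod.fst)
      have h4 : #((univ.image l).image Prod.fst) ≤ m :=
        card_image_le.trans (card_image_le.trans (by simp))
      rw [Fintype.card_fin] at h3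
      unfold fr at h2
      omega

lemma ex (k : ℕ) : ∃ F : Formula k k, dnf F = k := by
  obtain ⟨f⟩ : Nonempty (Fin k ↪ (Fin k → Bool)) :=
    Function.Embedding.nonempty_of_card_le (by simpa using Nat.lt_two_pow_self.le)
  refine ⟨fun i => univ.image fun v => (v, f i v), ?_⟩
  have : (univ.filter fun x : Fin k → Bool => ∃ i, ∀ l ∈ univ.image fun v => (v, f i v),
      x l.1 = l.2) = univ.map f := by
    ext x
    simp only [mem_filter, mem_univ, true_and, forall_mem_image, mem_map, forall_const]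
    exact exists_congr fun i => ⟨fun h => (funext fun v => @h v).symm, fun h v => h ▸ rfl⟩
  rw [dnf, this, card_map, card_fin]

theorem both : (∀ b : ℕ, ∃ k : ℕ, 0 < k ∧ bl k = b + 1 ∧ b ≤ beta k ^ 2) ∧
    ∀ p : Polynomial ℝ, ∃ k : ℕ, 0 < k ∧ p.eval (Real.logb 2 (bl k)) < beta k := by
  have H : ∀ b : ℕ, ∃ k : ℕ, 0 < k ∧ bl k = b + 1 ∧ b ≤ beta k ^ 2 := by
    intro b
    obtain ⟨F, hF⟩ := ex (K b)
    obtain ⟨n, G, hG⟩ := Nat.sInf_mem
      (s := {m | ∃ n, ∃ F : Formula n m, dnf F = K b ∨ cnf F = K b}) ⟨_, _, F, Or.inl hF⟩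
    exact ⟨K b, lt_of_lt_of_le (by positivity) (K_ge b), bl_K b, lower b G hG⟩
  refine ⟨H, fun p => ?_⟩
  have l2 : 0 < Real.log 2 := Real.log_pos one_lt_two
  have h1 := ((p.comp (Polynomial.C (2 / Real.log 2) * Polynomial.X + 1)).tendsto_div_exp_atTop.comp
    (tendsto_natCast_atTop_atTop.atTop_mul_const l2)).eventually_lt_const one_pos
  obtain ⟨s, hs⟩ := h1.exists
  obtain ⟨k, k0, k1, k2⟩ := H (2 ^ (2 * s + 1) - 1)
  refine ⟨k, k0, ?_⟩
  have e0 : 1 ≤ 2 ^ (2 * s) := Nat.one_le_two_pow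
  have e1 : 2 ^ s ≤ beta k := by
    rw [← Nat.pow_le_pow_iff_left two_ne_zero, ← pow_mul, mul_comm]
    rw [pow_succ] at k2
    omega
  rw [k1, Nat.sub_add_cancel Nat.one_le_two_pow]
  simp only [Function.comp, Polynomial.eval_comp, Polynomial.eval_add, Polynomial.eval_mul,
    Polynomial.eval_C, Polynomial.eval_X, Polynomial.eval_one] at hs
  rw [div_lt_one (Real.exp_pos _), Real.exp_nat_mul, Real.exp_log two_pos] at hs
  have e2 : Real.logb 2 ((2 ^ (2 * s + 1) : ℕ) : ℝ) = 2 / Real.log 2 * (s * Real.log 2) + 1 := by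
    push_cast
    rw [Real.logb_pow, Real.logb_self_eq_one one_lt_two]
    field_simp
    push_cast; ring
  rw [e2]
  exact hs.trans_le (by exact_mod_cast e1)

theorem result : ∀ b : ℕ, ∃ k : ℕ, 0 < k ∧ bl k = b + 1 ∧ b ≤ beta k ^ 2 :=
  both.1

end Pool.Agent.Results.MP_94c5d9_co.No
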